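import Pool.Agent.K.MP_858e15_gt.C1
import Pool.Agent.K.MP_858e15_gt.C0

namespace Pool.Agent.Results.MP_858e15_gt.AlmostAll

open Pool.Agent.P.MP_858e15_gt

theorem result : ∃ C : ℝ, ∀ X : ℝ, 1 ≤ X → ∀ S : Finset (ℤ × ℤ),
    (∀ s ∈ S, (s.1 : ℝ) ^ 2 + 12 * (s.2 : ℝ) ^ 2 ≤ X ∧ ¬ ((∃ v : ℝ, Vol s.1 s.2 v) ∧
      ∀ (p' q' : ℤ) (v : ℝ), Vol s.1 s.2 v → Vol p' q' v → |p'| = |s.1| ∧ |q'| = |s.2|)) →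
    (S.card : ℝ) ≤ C * √X * (1 + Real.log X) ^ 2 := by
  simp only [vol_iff]
  exact almost_all

end Pool.Agent.Results.MP_858e15_gt.AlmostAll
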