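import Pool.Agent.K.MP_858e15_gt.C2
import Pool.Agent.K.MP_858e15_gt.C0

namespace Pool.Agent.Results.MP_858e15_gt.Lines

open Pool.Agent.P.MP_858e15_gt

theorem result : ∀ a b i : ℤ, a ≠ 0 ∨ b ≠ 0 → ∃ C : ℝ, ∀ X : ℝ, 1 ≤ X → ∀ S : Finset (ℤ × ℤ),
    (∀ s ∈ S, s.1 * b - s.2 * a = i ∧ (s.1 : ℝ) ^ 2 + 12 * (s.2 : ℝ) ^ 2 ≤ X ∧
      ¬ ((∃ v : ℝ, Vol s.1 s.2 v) ∧ ∀ (p' q' : ℤ) (v : ℝ), Vol s.1 s.2 v →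
        Vol p' q' v → |p'| = |s.1| ∧ |q'| = |s.2|)) →
    (S.card : ℝ) ≤ C * (1 + Real.log X) := by
  simp only [vol_iff]
  exact on_lines

end Pool.Agent.Results.MP_858e15_gt.Lines
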