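import Pool.Agent.K.MP_858e15_gt.C0

namespace Pool.Agent.Results.MP_858e15_gt.NearNorm

open Pool.Agent.P.MP_858e15_gt

theorem result : ∃ K N₁ : ℝ, ∀ p q : ℤ, N₁ ≤ (p : ℝ) ^ 2 + 12 * (q : ℝ) ^ 2 →
    (∃ v : ℝ, Vol p q v) ∧ ∀ (p' q' : ℤ) (v : ℝ), Vol p q v → Vol p' q' v →
      (|p'| = |p| ∧ |q'| = |q|) ∨ ∃ k : ℤ, k ≠ 0 ∧ |k| ≤ 13 ∧
        p' ^ 2 + 12 * q' ^ 2 = p ^ 2 + 12 * q ^ 2 + k ∧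
        |96 * ((p' : ℝ) ^ 2 * (q' : ℝ) ^ 2) / ((p' : ℝ) ^ 2 + 12 * (q' : ℝ) ^ 2) ^ 2
            - 96 * ((p : ℝ) ^ 2 * (q : ℝ) ^ 2) / ((p : ℝ) ^ 2 + 12 * (q : ℝ) ^ 2) ^ 2
            - 3 * (k : ℝ) / (2 * Real.pi ^ 2)| ≤ K / ((p : ℝ) ^ 2 + 12 * (q : ℝ) ^ 2) := by
  simp only [vol_iff]
  obtain ⟨K, N, -, -, h⟩ := compare
  refine ⟨K, N, fun p q hN => ⟨(h p q hN).1, fun p' q' v h1 h2 => ?_⟩⟩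
  refine ((h p q hN).2 p' q' v h1 h2).imp_right ?_
  rintro ⟨k, k1, k2, k3, k4⟩
  refine ⟨k, k1, k2, k3, ?_⟩
  unfold c4 at k4
  refine le_of_eq_of_le ?_ k4
  congr 1
  ring

end Pool.Agent.Results.MP_858e15_gt.NearNorm
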